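import Pool.Agent.Hhelper34.F3.Main

namespace Pool.Agent.Results.MP_f3e379_co.NonDivisible

open Pool.Agent.F3 SimpleGraph

universe u

/-- For every `k ≥ 3` there is `m₀` such that for all `m ≥ m₀` with
`m + k(k+1)/2 ≡ l (mod k)`, `1 ≤ l ≤ k - 1`, the number `n = (m-l)/k + (k+3)/2` is an integer
`≥ k+1`, the graph `S^{1,l}_{n,k}` is an `F_{k,3}`-free graph with exactly `m` edges and no
isolated vertices, and it is, up to isomorphism, the unique graph of maximum spectral radius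
among all such graphs. -/
theorem result (k : ℕ) (hk : 3 ≤ k) :
    ∃ m₀ : ℕ, ∀ m : ℕ, m₀ ≤ m → ∀ l : ℕ, 1 ≤ l → l ≤ k - 1 →
      m + k * (k + 1) / 2 ≡ l [MOD k] →
      ∃ n : ℕ, (n : ℚ) = ((m : ℚ) - l) / k + ((k : ℚ) + 3) / 2 ∧ k + 1 ≤ n ∧
        InClass m k (Sgraph n k l) ∧
        ∀ (V : Type u) [Fintype V] (G : SimpleGraph V), InClass m k G →
          lam G ≤ lam (Sgraph n k l) ∧
          (lam G = lam (Sgraph n k l) ↔ Nonempty (G ≃g Sgraph n k l)) := by
  refine ⟨10 ^ 14 * k ^ 14 + k ^ 2, fun m hm l hl1 hlk hmod => ?_⟩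
  have hlk' : l < k := by omega
  have hd1 : 2 * (k * (k - 1) / 2) = k * (k - 1) :=
    Nat.mul_div_cancel' (Nat.even_mul_pred_self k).two_dvd
  have hd2 : 2 * (k * (k + 1) / 2) = k * (k + 1) :=
    Nat.mul_div_cancel' (Nat.even_mul_succ_self k).two_dvd
  have hd3 : k * (k - 1) / 2 + k * (k + 1) / 2 = k ^ 2 := by
    obtain ⟨j, rfl⟩ : ∃ j, k = j + 1 := ⟨k - 1, by omega⟩
    have e1 : j + 1 - 1 = j := by omega
    rw [e1] at hd1 ⊢
    nlinarith
  -- find t
  have hm2 : k ^ 2 ≤ m := le_trans (Nat.le_add_left _ _) hm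
  obtain ⟨Q, hQ⟩ : ∃ Q, m + k * (k + 1) / 2 = k * Q + l := by
    refine ⟨(m + k * (k + 1) / 2) / k, ?_⟩
    have h1 := Nat.div_add_mod (m + k * (k + 1) / 2) k
    have h2 : (m + k * (k + 1) / 2) % k = l := by
      rw [hmod, Nat.mod_eq_of_lt hlk']
    omega
  have hQk : k ≤ Q := by
    by_contra hcon
    push Not at hcon
    have h1 : k * Q + k ≤ k * k := by
      have : Q + 1 ≤ k := hcon
      nlinarith
    have h2 : k ^ 2 = k * k := sq k
    omega
  obtain ⟨t, rfl⟩ : ∃ t, Q = k + t := ⟨Q - k, by omega⟩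
  have ht : m = k * t + k * (k - 1) / 2 + l := by
    have h1 : k * (k + t) = k ^ 2 + k * t := by ring
    omega
  refine ⟨t + k + 1, ?_, by omega, ?_, ?_⟩
  · have hk0 : (k : ℚ) ≠ 0 := by
      have : k ≠ 0 := by omega
      exact_mod_cast this
    have h2 : (2 : ℚ) * m = 2 * k * t + k * ((k : ℚ) - 1) + 2 * l := by
      have h3 : 2 * m = 2 * k * t + k * (k - 1) + 2 * l := by
        have h4 : 2 * k * t = 2 * (k * t) := by ring
        omega
      have h4 : ((2 * m : ℕ) : ℚ) = ((2 * k * t + k * (k - 1) + 2 * l : ℕ) : ℚ) := by rw [h3]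
      push_cast [Nat.cast_sub (show 1 ≤ k by omega)] at h4
      linarith
    field_simp
    push_cast
    linarith
  · refine ⟨S_free _ _ _ (by omega) hlk'.le, ?_, S_noiso _ _ _ (by omega) hl1 hlk'⟩
    rw [S_edges _ _ _ hlk'.le (by omega), ht]
    have : t + k + 1 - k - 1 = t := by omega
    rw [this]
  · intro V _ G hG
    by_cases hle : lam (Sgraph (t + k + 1) k l) ≤ lam G
    · have hiso := main_iso hk hl1 hlk' ht hm G hG hle
      obtain ⟨e⟩ := hiso
      have heq := lam_iso G _ e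
      exact ⟨heq.le, fun _ => ⟨e⟩, fun _ => heq⟩
    · push Not at hle
      refine ⟨hle.le, fun h => absurd h hle.ne, fun ⟨e⟩ => lam_iso G _ e⟩

end Pool.Agent.Results.MP_f3e379_co.NonDivisible
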